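import Mathlib
import Pool.Agent.N202.M4.Stm2

/-!
# Task M4/DIA: positive definite rational matrices can be diagonalized
-/

set_option autoImplicit false

namespace Pool.Agent.N457.M4

open Matrix

theorem dia_ : Pool.Agent.N202.M4.S_DIA := by
  intro n G hG hpos
  obtain ⟨B, hB⟩ : ∃ B : LinearMap.BilinForm ℚ (Fin n → ℚ), B = Matrix.toBilin' G := ⟨_, rfl⟩
  have happ : ∀ v w : Fin n → ℚ, B v w = ∑ i, ∑ k, v i * G i k * w k := by
    intro v w
    rw [hB, Matrix.toBilin'_apply]
  have hGs : ∀ i k, G i k = G k i := fun i k => by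
    conv_lhs => rw [← hG]
    rfl
  have hsymm : LinearMap.IsSymm B := by
    refine ⟨fun v w => ?_⟩
    show B v w = B w v
    rw [happ, happ, Finset.sum_comm]
    refine Finset.sum_congr rfl fun i _ => Finset.sum_congr rfl fun k _ => ?_
    rw [hGs k i]
    ring
  have : Invertible (2 : ℚ) := invertibleOfNonzero (by norm_num)
  obtain ⟨v0, hv0⟩ := LinearMap.BilinForm.exists_orthogonal_basis hsymm
  have hfin : Module.finrank ℚ (Fin n → ℚ) = n := by simp
  obtain ⟨v, hv⟩ : ∃ v : Module.Basis (Fin n) ℚ (Fin n → ℚ), ∀ i k, i ≠ k → B (v i) (v k) = 0 := by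
    refine ⟨v0.reindex (finCongr hfin), fun i k hik => ?_⟩
    rw [Module.Basis.reindex_apply, Module.Basis.reindex_apply]
    exact hv0 (by
      intro h
      exact hik ((finCongr hfin).symm.injective h))
  obtain ⟨V, hV⟩ : ∃ V : Matrix (Fin n) (Fin n) ℚ, V = (Pi.basisFun ℚ (Fin n)).toMatrix v :=
    ⟨_, rfl⟩
  obtain ⟨W, hW⟩ : ∃ W : Matrix (Fin n) (Fin n) ℚ, W = v.toMatrix (Pi.basisFun ℚ (Fin n)) :=
    ⟨_, rfl⟩
  have hVW : V * W = 1 := by
    rw [hV, hW]
    exact Module.Basis.toMatrix_mul_toMatrix_flip _ _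
  have hVe : ∀ i j, V i j = v j i := by
    intro i j
    rw [hV, Module.Basis.toMatrix_apply, Pi.basisFun_repr]
  have hdiag : V.transpose * G * V = Matrix.diagonal (fun i => B (v i) (v i)) := by
    ext j k
    have h1 : (V.transpose * G * V) j k = B (v j) (v k) := by
      rw [happ, Matrix.mul_apply]
      simp only [Matrix.mul_apply, Matrix.transpose_apply, hVe, Finset.sum_mul]
      rw [Finset.sum_comm]
    rw [h1]
    by_cases hjk : j = k
    · subst hjk
      rw [Matrix.diagonal_apply_eq]
    · rw [Matrix.diagonal_apply_ne _ hjk, hv j k hjk]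
  refine ⟨W.transpose, fun i => B (v i) (v i), fun i => ?_, ?_⟩
  · show 0 < B (v i) (v i)
    rw [happ]
    exact hpos _ (v.ne_zero i)
  · rw [← hdiag, Matrix.transpose_transpose]
    have hWV : W.transpose * V.transpose = 1 := by
      rw [← Matrix.transpose_mul, hVW, Matrix.transpose_one]
    calc W.transpose * (V.transpose * G * V) * W
        = (W.transpose * V.transpose) * G * (V * W) := by simp only [Matrix.mul_assoc]
      _ = G := by rw [hWV, hVW, Matrix.one_mul, Matrix.mul_one]

end Pool.Agent.N457.M4
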